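import Pool.Agent.H914R2.WBase2
import Pool.Agent.TH117.NH.Base

/-!
# Coefficients of elements and operators after an extension of the base field
-/

open CategoryTheory AlgebraicGeometry Finset TensorProduct Polynomial

set_option autoImplicit false

universe u v

namespace Pool.Agent.TH127

open Pool.Agent.H914

section Alg

variable {K : Type*} [Field K] {V : Type*} [Ring V] [Algebra K V] {L : Type*} [Field L]
  [Algebra K L]

/-- The coefficient of an element of the extension, for a linear form on the extension field. -/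
noncomputable def coef (φ : L →ₗ[K] K) : L ⊗[K] V →ₗ[K] V :=
  (TensorProduct.lid K V).toLinearMap ∘ₗ φ.rTensor V

lemma coef_tmul (φ : L →ₗ[K] K) (l : L) (v : V) : coef φ (l ⊗ₜ[K] v) = φ l • v := by
  rw [coef, LinearMap.comp_apply, LinearMap.rTensor_tmul, LinearEquiv.coe_coe,
    TensorProduct.lid_tmul]

lemma coef_base (φ : L →ₗ[K] K) (F : Module.End K V) (x : L ⊗[K] V) :
    coef φ (F.baseChange L x) = F (coef φ x) := by
  induction x using TensorProduct.induction_on with
  | zero => simp only [map_zero]
  | add x y hx hy => simp only [map_add, hx, hy]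
  | tmul l v => rw [LinearMap.baseChange_tmul, coef_tmul, coef_tmul, map_smul]

lemma coef_mem {p : Submodule K V} (φ : L →ₗ[K] K) {x : L ⊗[K] V} (hx : x ∈ p.baseChange L) :
    coef φ x ∈ p := by
  refine base_induction (P := fun x => coef φ x ∈ p) ?_ ?_ ?_ hx
  · rw [map_zero]
    exact p.zero_mem
  · intro x y hx hy
    rw [map_add]
    exact p.add_mem hx hy
  · intro l a ha
    rw [coef_tmul]
    exact p.smul_mem _ ha

lemma eq_sum_coef {ι : Type*} (b : Module.Basis ι K L) (x : L ⊗[K] V) :
    ∃ s : Finset ι, ∀ t : Finset ι, s ⊆ t → x = ∑ i ∈ t, b i ⊗ₜ[K] coef (b.coord i) x := by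
  classical
  set c := TensorProduct.equivFinsuppOfBasisLeft (N := V) b x with hc
  have hci : ∀ i, c i = coef (b.coord i) x := by
    intro i
    rw [hc, TensorProduct.equivFinsuppOfBasisLeft_apply]
    rfl
  refine ⟨c.support, fun t ht => ?_⟩
  have h1 : x = (TensorProduct.equivFinsuppOfBasisLeft (N := V) b).symm c := by
    rw [hc, LinearEquiv.symm_apply_apply]
  rw [TensorProduct.equivFinsuppOfBasisLeft_symm_apply] at h1
  conv_lhs => rw [h1]
  rw [Finsupp.sum_of_support_subset c ht _ (fun i _ => by rw [tmul_zero])]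
  exact Finset.sum_congr rfl fun i _ => by rw [hci]

lemma mem_base_of_coef {p : Submodule K V} {x : L ⊗[K] V} (h : ∀ φ : L →ₗ[K] K, coef φ x ∈ p) :
    x ∈ p.baseChange L := by
  obtain ⟨s, hs⟩ := eq_sum_coef (Module.Basis.ofVectorSpace K L) x
  rw [hs s subset_rfl]
  exact Submodule.sum_mem _ fun i _ => Submodule.tmul_mem_baseChange_of_mem _ (h _)

/-- The coefficient of the product with the class of a vector. -/
lemma coef_form (φ : L →ₗ[K] K) (tr : V →ₗ[K] K) (x : L ⊗[K] V) (c : V) :
    φ (formBase L tr (x * (1 : L) ⊗ₜ[K] c)) = tr (coef φ x * c) := by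
  induction x using TensorProduct.induction_on with
  | zero => simp only [map_zero, zero_mul]
  | add x y hx hy => rw [add_mul, map_add, map_add, hx, hy, map_add, add_mul, map_add]
  | tmul l v =>
    rw [Algebra.TensorProduct.tmul_mul_tmul, formBase_tmul, mul_one, coef_tmul, mul_comm,
      ← Algebra.smul_def, map_smul, smul_eq_mul, smul_mul_assoc, map_smul, smul_eq_mul, mul_comm]

/-- The coefficient of an operator. -/
noncomputable def opCoef (φ : L →ₗ[K] K) (Z : Module.End L (L ⊗[K] V)) : Module.End K V :=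
  coef φ ∘ₗ (Z.restrictScalars K) ∘ₗ (TensorProduct.mk K L V 1)

lemma opCoef_apply (φ : L →ₗ[K] K) (Z : Module.End L (L ⊗[K] V)) (v : V) :
    opCoef φ Z v = coef φ (Z ((1 : L) ⊗ₜ[K] v)) := rfl

/-- An operator is a combination of the extensions of its coefficients. -/
lemma mem_of_opCoef [Module.Finite K V] (C : Submodule K (Module.End K V))
    (C' : Submodule L (Module.End L (L ⊗[K] V)))
    (hC : ∀ Y ∈ C, (Y.baseChange L : Module.End L (L ⊗[K] V)) ∈ C')
    (Z : Module.End L (L ⊗[K] V)) (h : ∀ φ : L →ₗ[K] K, opCoef φ Z ∈ C) : Z ∈ C' := by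
  classical
  set b := Module.Basis.ofVectorSpace K L
  set v := Module.finBasis K V
  choose s hs using fun j => eq_sum_coef b (Z ((1 : L) ⊗ₜ[K] v j))
  set t := Finset.univ.biUnion s with ht
  have h1 : Z = ∑ i ∈ t, b i • (opCoef (b.coord i) Z).baseChange L := by
    apply (v.baseChange L).ext
    intro j
    rw [Module.Basis.baseChange_apply, LinearMap.sum_apply]
    conv_lhs => rw [hs j t (Finset.subset_biUnion_of_mem s (Finset.mem_univ j))]
    refine Finset.sum_congr rfl fun i _ => ?_
    rw [LinearMap.smul_apply, LinearMap.baseChange_tmul, opCoef_apply, smul_tmul', smul_eq_mul,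
      mul_one]
  rw [h1]
  exact Submodule.sum_mem _ fun i _ => Submodule.smul_mem _ _ (hC _ (h _))

end Alg

end Pool.Agent.TH127
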