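import Pool.Agent.TH127.DensDefs

/-!
# Homological and numerical equivalence for the coefficients `ℚ_ℓ`: definition
-/

open CategoryTheory AlgebraicGeometry

set_option autoImplicit false

universe u v

namespace Pool.Agent.TH127

open Pool.Agent.H914 Pool.Agent.H914.VarClass Pool.Agent.H914.VarClass.Obj
  Pool.Agent.H914.WeilCohomology Pool.Agent.W550.B

/-- For every Weil cohomology theory (for varieties over any field) whose coefficient field is
isomorphic to the field of `ℓ`-adic numbers, homological and numerical equivalence coincide for all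
varieties generated by varieties as in `IsWeilVariety`. -/
def NumEqHomAt (E : Subfield ℂ) (ℓ : ℕ) [Fact ℓ.Prime] : Prop :=
  ∀ (k : Type u) [Field k] (𝒱 : VarClass k) (ops : CycleOps 𝒱) (W : WeilCohomology.{u, v} ops),
    Nonempty (W.K ≃+* ℚ_[ℓ]) → ∀ Y, IsGenerated W {P | IsWeilVariety W E P} Y → HomEqNum W Y

end Pool.Agent.TH127
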