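import Pool.Agent.W550.B.Defs

/-!
# Varieties whose Frobenius eigenvalues belong to a number field: definitions
-/

open CategoryTheory AlgebraicGeometry Polynomial

set_option autoImplicit false

universe u v

namespace Pool.Agent.TH127

section Alg

variable {K : Type*} [Field K] {V : Type*} [AddCommGroup V] [Module K V]

/-- All operators which preserve the degrees, commute with `F`, vanish on the set `A` and have values
in the subspace `T` have the property `P`. -/
def CommutantBetween (gr : ℕ → Submodule K V) (F : Module.End K V) (A : Set V)
    (T : Submodule K V) (P : Module.End K V → Prop) : Prop :=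
  ∀ Z : Module.End K V, (∀ i, ∀ a ∈ gr i, Z a ∈ gr i) → (∀ a, Z (F a) = F (Z a)) →
    (∀ a ∈ A, Z a = 0) → (∀ a, Z a ∈ T) → P Z

/-- For every `i` the operator `F` is annihilated on `gr i` by a polynomial with integral
coefficients all of whose complex roots belong to the field `E` and have the absolute value
`q ^ (i / 2)`. -/
def WeilNumbersIn (gr : ℕ → Submodule K V) (F : Module.End K V) (q : ℕ) (E : Subfield ℂ) : Prop :=
  ∀ i, ∃ P : ℤ[X], (∀ a ∈ gr i, aeval F P a = 0) ∧
    ∀ z : ℂ, aeval z P = 0 → z ∈ E ∧ ‖z‖ ^ 2 = (q : ℝ) ^ i

/-- The operator `F` on the space graded by the subspaces `gr i` multiplies the vector `ξ` by `q`, is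
semisimple, its eigenvalues on `gr i` are algebraic numbers contained in `E`, all of whose conjugates
have the absolute value `q ^ (i / 2)`, and all operators which preserve the degrees, commute with `F`,
vanish on the set `A` and have values in the subspace `T` have the property `P`. -/
structure IsWeilOp (gr : ℕ → Submodule K V) (F : Module.End K V) (ξ : V) (q : ℕ) (E : Subfield ℂ)
    (A : Set V) (T : Submodule K V) (P : Module.End K V → Prop) : Prop where
  one_lt : 1 < q
  scale : F ξ = (q : K) • ξ
  semisimple : F.IsSemisimple
  weights : WeilNumbersIn gr F q E
  commutant : CommutantBetween gr F A T P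

end Alg

open Pool.Agent.H914 Pool.Agent.H914.VarClass Pool.Agent.H914.VarClass.Obj
  Pool.Agent.H914.WeilCohomology Pool.Agent.W550.B

variable {k : Type u} [Field k] {𝒱 : VarClass k} {ops : CycleOps 𝒱}

/-- The endomorphism `F` of `X` has the properties of the Frobenius endomorphism over the finite
field with `q` elements: it multiplies the class of the divisor `D` by `q`, its action on the
cohomology is semisimple, and its eigenvalues on `H^i(X)` are algebraic numbers contained in `E`, all
of whose conjugates have the absolute value `q ^ (i / 2)`. All operators on the transcendental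
cohomology (the orthogonal complement of the classes of cycles, extended by zero on these classes)
which preserve the degrees and commute with `F^*` are linear combinations, with coefficients in the
coefficient field, of algebraic correspondences. -/
def IsWeilEndo (W : WeilCohomology.{u, v} ops) (E : Subfield ℂ) (X : 𝒱.Obj)
    (D : X.Cycles) (F : X ⟶ X) (q : ℕ) : Prop :=
  IsWeilOp (W.gr X) (pullOp W F) (W.cl X D) q E (⋃ j, algClasses W X j) (transcendental W X)
    (IsAlgOp W X)

/-- The variety `X` satisfies the conjecture D, and the conjecture B for a divisor `D` with hard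
Lefschetz, and has an endomorphism with the properties of `IsWeilEndo`. -/
def IsWeilVariety (W : WeilCohomology.{u, v} ops) (E : Subfield ℂ) (X : 𝒱.Obj) : Prop :=
  HomEqNum W X ∧ ∃ D, X.IsCyc 1 D ∧ HardLefschetz W X D ∧ LefschetzB W X D ∧
    ∃ F q, IsWeilEndo W E X D F q

end Pool.Agent.TH127
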