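import Pool.Agent.TH127.DensNumDefs

/-!
# The primes at which the complex conjugation is induced by an automorphism over the local field
-/

set_option autoImplicit false

namespace Pool.Agent.TH127

open Pool.Agent.W522.C Pool.Agent.W401.Cheb NumberField Finset

/-- The complex conjugation on `E` is induced by an automorphism of the algebraic closure of the
`ℓ`-adic numbers, for some embedding. -/
def ConjAt (E : Subfield ℂ) (ℓ : ℕ) [Fact ℓ.Prime] : Prop :=
  ∃ (ι : E →+* AlgebraicClosure ℚ_[ℓ])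
    (σ : AlgebraicClosure ℚ_[ℓ] ≃ₐ[ℚ_[ℓ]] AlgebraicClosure ℚ_[ℓ]),
      ∀ x y : E, (y : ℂ) = (starRingEnd ℂ) (x : ℂ) → σ (ι x) = ι y

lemma toRingEquiv_bijective (E : Subfield ℂ) [NumberField E] :
    Function.Bijective (fun g : Gal(E/ℚ) => g.toRingEquiv) := by
  constructor
  · intro g h hgh
    apply AlgEquiv.ext
    intro x
    exact congrArg (fun e : E ≃+* E => e x) hgh
  · intro g
    refine ⟨AlgEquiv.ofRingEquiv (f := g) fun x => ?_, ?_⟩
    · rw [eq_ratCast, map_ratCast]
    · ext x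
      rfl

theorem density_conjAt (E : Subfield ℂ) [NumberField E] [IsGalois ℚ E] :
    LowerDensity {ℓ | ∃ h : ℓ.Prime, @ConjAt E ℓ ⟨h⟩} (conjDensity E) := by
  classical
  obtain ⟨D, hD, hT⟩ := torsor E
  set T : Finset Gal(E/ℚ) := univ.filter fun g => g.toRingEquiv ∈ conjugating E with hTdef
  have h1 := lower_density E T hD hT
  have hcard : T.card = Nat.card (conjugating E) := by
    rw [← Nat.card_eq_finsetCard]
    refine Nat.card_congr ((Equiv.ofBijective _ (toRingEquiv_bijective E)).subtypeEquiv ?_)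
    intro g
    rw [hTdef, mem_filter]
    simp only [mem_univ, true_and]
    rfl
  have hdeg : Nat.card Gal(E/ℚ) = Module.finrank ℚ E := IsGalois.card_aut_eq_finrank ℚ E
  rw [hcard, hdeg] at h1
  refine h1.mono fun ℓ hℓ hS => ⟨hℓ, ?_⟩
  obtain ⟨h2, g, hg, h3⟩ := hS
  obtain ⟨m, hm⟩ := (mem_filter.1 hg).2
  have : Fact ℓ.Prime := ⟨hℓ⟩
  obtain ⟨ι, σ, hσ⟩ := sigma_lift E g (hT ℓ h2) h3
  refine ⟨ι, σ ^ m, fun x y hxy => ?_⟩
  have h4 : ∀ (n : ℕ) (x : E), (σ ^ n) (ι x) = ι ((g.toRingEquiv)^[n] x) := by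
    intro n
    induction n with
    | zero => intro x; rfl
    | succ n ih =>
      intro x
      rw [pow_succ, AlgEquiv.mul_apply, hσ, ih, Function.iterate_succ_apply]
      rfl
  rw [h4]
  congr 1
  apply Subtype.ext
  rw [hm, hxy]

lemma exists_conj (E : Subfield ℂ) [NumberField E] [IsGalois ℚ E] :
    ∃ g : E ≃+* E, ∀ x : E, ((g x : E) : ℂ) = (starRingEnd ℂ) (x : ℂ) := by
  have : IsScalarTower ℚ E ℂ := IsScalarTower.of_algebraMap_eq' (by apply RingHom.ext_rat)
  let c : ℂ ≃ₐ[ℚ] ℂ := Complex.conjAe.restrictScalars ℚ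
  exact ⟨(c.restrictNormal E).toRingEquiv, fun x => c.restrictNormal_commutes E x⟩

lemma one_div_le_conjDensity (E : Subfield ℂ) [NumberField E] [IsGalois ℚ E] :
    1 / (Module.finrank ℚ E : ℝ) ≤ conjDensity E := by
  unfold conjDensity
  apply div_le_div_of_nonneg_right _ (Nat.cast_nonneg _)
  have : Finite (E ≃+* E) := Finite.of_equiv _ (Equiv.ofBijective _ (toRingEquiv_bijective E))
  obtain ⟨g, hg⟩ := exists_conj E
  have : Nonempty (conjugating E) := ⟨⟨g, 1, hg⟩⟩
  have : 0 < Nat.card (conjugating E) := Nat.card_pos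
  exact_mod_cast this

end Pool.Agent.TH127
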