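import Pool.Agent.TH127.Irr
import Pool.Agent.H281R3.HT.FMain
import Pool.Agent.W534.FamD
import Pool.Agent.TH117.NH.Main

/-!
# The conjectures D and B for varieties generated by varieties with irreducible eigenspaces
-/

open CategoryTheory AlgebraicGeometry Finset

universe u v w

namespace Pool.Agent.TH127

open Pool.Agent.H914 Pool.Agent.H914.VarClass Pool.Agent.H914.VarClass.Obj
  Pool.Agent.H914.WeilCohomology Pool.Agent.W550.B Pool.Agent.H281R3.HT Pool.Agent.W534

variable {k : Type u} [Field k] {𝒱 : VarClass k} {ops : CycleOps 𝒱}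
  {W : WeilCohomology.{u, v} ops} {X Y Q : 𝒱.Obj}

lemma homEqNumIn_of (h : HomEqNum W X) (q : ℕ) : Pool.Agent.H447.HomEqNumIn W X q := by
  intro z hz hnum
  by_cases hq : q ≤ X.dim
  · exact h q hq z hz hnum
  · have h2 := W.cl_mem hz
    rw [W.gr_eq_bot _ _ (by omega), Submodule.mem_bot] at h2
    exact h2

/-- A numerically trivial operator between varieties whose product satisfies D is zero. -/
lemma op_eq_zero {d : ℤ} {φ : W.H X →ₗ[W.K] W.H Y} (h : HomEqNum W (X.prod Y))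
    (hφ : (numFam W).Op X Y d φ) : φ = 0 := by
  rcases hφ with ⟨p, hp, c, hc, rfl⟩ | ⟨_, rfl⟩
  · have h1 : c = 0 := (homEqNumIn_iff (W := W) (X.prod Y) p).1 (homEqNumIn_of h p) hc
    rw [h1, corr_zero]
  · rfl

/-- The conjecture D for the squares of direct summands. -/
theorem homEqNumIn_sq_of_isSummand {r : ℕ} {P : Fin r → 𝒱.Obj}
    (hP : ∀ i j, HomEqNum W ((P i).prod (P j))) (hY : IsSummand W Y P) (q : ℕ) :
    Pool.Agent.H447.HomEqNumIn W (Y.prod Y) q := by
  obtain ⟨u, v, h, hsum⟩ := hY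
  rw [homEqNumIn_iff]
  refine Fam.op_iff.1 (fun e φ hφ => ?_) q
  have hid : ∑ j, cycMap W (v j) ∘ₗ cycMap W (u j) = LinearMap.id := by
    apply LinearMap.ext
    intro x
    rw [LinearMap.sum_apply]
    exact hsum x
  have h0 : φ = 0 := by
    have h1 : φ = (∑ i, cycMap W (v i) ∘ₗ cycMap W (u i)) ∘ₗ φ ∘ₗ
        (∑ j, cycMap W (v j) ∘ₗ cycMap W (u j)) := by
      rw [hid, LinearMap.id_comp, LinearMap.comp_id]
    rw [h1]
    apply LinearMap.ext
    intro x
    simp only [LinearMap.comp_apply, LinearMap.sum_apply, map_sum, LinearMap.zero_apply]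
    apply Finset.sum_eq_zero
    intro j _
    apply Finset.sum_eq_zero
    intro i _
    obtain ⟨a, b, hab, hu, -⟩ := h i
    obtain ⟨a', b', hab', -, hv⟩ := h j
    have h2 : (numFam W).Op (P j) (P i) _ (cycMap W (u i) ∘ₗ (φ ∘ₗ cycMap W (v j))) :=
      (hφ.comp_right (QOp.gen (d := (b' : ℤ) - (P j).dim) (by ring) hv)).comp_left
        (QOp.gen (d := (a : ℤ) - Y.dim) (by ring) hu)
    have h3 := congrArg (fun G => G (cycMap W (u j) x)) (op_eq_zero (hP j i) h2)
    simp only [LinearMap.comp_apply, LinearMap.zero_apply] at h3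
    rw [h3, map_zero]
  rw [h0]
  exact Fam.Op.zero _ _ _ _

/-- **The conjectures D and B for varieties generated by varieties with irreducible
eigenspaces.** -/
theorem generated [IsAlgClosed W.K] (S : Conjugation W) {T : Set 𝒱.Obj}
    (hT : ∀ P ∈ T, IsIrreducibleVariety W S.τ P) (hY : IsGenerated W T Y) :
    HomEqNum W Y ∧ ∀ D, Y.IsCyc 1 D → HardLefschetz W Y D → LefschetzB W Y D := by
  have hprod := (products_iff_BD S.pushCompatible (Subtype.val : T → 𝒱.Obj)
    (fun P => by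
      obtain ⟨hDP, D, h1, h2, h3, F, q, h4⟩ := hT P.1 P.2
      exact h4.commCommK)
    (fun P => by
      obtain ⟨hDP, D, h1, h2, h3, F, q, h4⟩ := hT P.1 P.2
      exact h4.pairsConjK S h1 h2 h3 hDP)).1 (fun P => (hT P.1 P.2).1)
  rw [Subtype.range_coe] at hprod
  have hQ : ∀ Q, IsProductOf T Q → HomEqNum W Q := by
    intro Q hQ
    refine (hprod Q hQ Q ⟨𝟙 _, 0, Q.V.fundCycle, 1, Q.V.fundCycle_mem, one_ne_zero, ?_⟩).1
    rw [W.push_id, W.cl_fund, one_smul]
  rcases hY with ⟨Q, hQ', h⟩ | ⟨r, Q, hQ', h⟩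
  · exact hprod Q hQ' Y h
  · refine ⟨Pool.Agent.TH117.NH.homEqNum_of_isSummand (fun j => hQ _ (hQ' j)) h, ?_⟩
    intro D hD hHL
    exact Pool.Agent.H447.lefschetzB_of_homEqNumIn hD hHL
      (homEqNumIn_sq_of_isSummand (fun i j => hQ _ (IsProductOf.prod (hQ' i) (hQ' j))) h _)

end Pool.Agent.TH127
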