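import Pool.Agent.TH127.DensAlg
import Pool.Agent.TH127.DensDefs
import Pool.Agent.TH127.DensNum
import Pool.Agent.TH127.IrrTop
import Pool.Agent.H914R2.PDesc

/-!
# Varieties with Frobenius eigenvalues in a number field after an extension of the coefficients
-/

open CategoryTheory AlgebraicGeometry Finset TensorProduct Polynomial

set_option autoImplicit false

universe u v

namespace Pool.Agent.TH127

open Pool.Agent.H914

section Alg

variable {K : Type*} [Field K] {V : Type*} [Ring V] [Algebra K V] {L : Type*} [Field L]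
  [Algebra K L]

lemma eq_of_coef {x y : L ⊗[K] V} (h : ∀ φ : L →ₗ[K] K, coef φ x = coef φ y) : x = y := by
  have h1 : x - y ∈ (⊥ : Submodule K V).baseChange L := mem_base_of_coef fun φ => by
    rw [map_sub, h, sub_self]
    exact Submodule.zero_mem _
  rw [Submodule.baseChange_bot, Submodule.mem_bot, sub_eq_zero] at h1
  exact h1

lemma coef_pow (φ : L →ₗ[K] K) (F : Module.End K V) (n : ℕ) (x : L ⊗[K] V) :
    coef φ (((F.baseChange L : Module.End L (L ⊗[K] V)) ^ n) x) = (F ^ n) (coef φ x) := by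
  rw [Pool.Agent.TH117.NH.baseChange_pow, coef_base]

lemma isLam_base {gr : ℕ → Submodule K V} {n : ℕ} {T Lam : Module.End K V}
    (h : IsLam gr n T Lam) : IsLam (fun i => (gr i).baseChange L) n
      (T.baseChange L : Module.End L (L ⊗[K] V)) (Lam.baseChange L) := by
  intro i hi a ha h0
  have h1 : ∀ φ : L →ₗ[K] K, (T ^ (n - i + 1)) (coef φ a) = 0 := fun φ => by
    rw [← coef_pow, h0, map_zero]
  refine ⟨eq_of_coef fun φ => ?_, fun j hj => eq_of_coef fun φ => ?_⟩
  · rw [coef_base, (h i hi _ (coef_mem φ ha) (h1 φ)).1, map_zero]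
  · rw [coef_base, coef_pow, coef_pow, (h i hi _ (coef_mem φ ha) (h1 φ)).2 j hj]

lemma sig_base {A B : Type*} [AddCommGroup A] [Module K A] [AddCommGroup B] [Module K B]
    (τ : L ≃ₐ[K] L) (F : A →ₗ[K] B) (a : L ⊗[K] A) :
    sig τ (F.baseChange L a) = F.baseChange L (sig τ a) := by
  induction a using TensorProduct.induction_on with
  | zero => rw [map_zero, map_zero, map_zero, map_zero]
  | add x y hx hy => rw [map_add, map_add, hx, hy, map_add, map_add]
  | tmul l b => rw [LinearMap.baseChange_tmul, sig_tmul, sig_tmul, LinearMap.baseChange_tmul]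

/-- Eigenvalues which are Weil numbers in `E` are mapped to their conjugates. -/
lemma hasWeights_base {gr : ℕ → Submodule K V} {F : Module.End K V} {q : ℕ} {E : Subfield ℂ}
    (h : WeilNumbersIn gr F q E) (hq : q ≠ 0) (ι : E →+* L) (τ : L ≃ₐ[K] L)
    (hτ : ∀ x y : E, (y : ℂ) = (starRingEnd ℂ) (x : ℂ) → τ (ι x) = ι y) :
    Pool.Agent.W550.B.HasWeights (fun i => (gr i).baseChange L)
      (F.baseChange L : Module.End L (L ⊗[K] V)) (τ : L →+* L) q := by
  intro i α v hv hv0 hα
  obtain ⟨P, hP, hz⟩ := h i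
  have hP0 : P ≠ 0 := by
    rintro rfl
    have h1 := (hz 0 (by simp)).2
    rw [norm_zero, zero_pow two_ne_zero] at h1
    exact pow_ne_zero i (Nat.cast_ne_zero.2 hq) h1.symm
  -- the root
  have h1 : aeval α P = 0 := by
    have h2 := Pool.Agent.TH117.NH.eigenvalue_base (T := F) (P := P.map (algebraMap ℤ K)) hv hv0 hα
      (fun a ha => by
        rw [aeval_map_algebraMap]
        exact hP a ha)
    rwa [aeval_map_algebraMap] at h2
  -- the polynomial splits over `E`
  have hne : P.map (algebraMap ℤ E) ≠ 0 :=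
    (Polynomial.map_ne_zero_iff (RingHom.injective_int (algebraMap ℤ E))).2 hP0
  have hsplit : (P.map (algebraMap ℤ E)).Splits := by
    have h2 : ((P.map (algebraMap ℤ E)).map E.subtype).Splits := IsAlgClosed.splits _
    refine h2.of_splits_map E.subtype fun a ha => ?_
    rw [Polynomial.map_map, RingHom.ext_int (E.subtype.comp (algebraMap ℤ E)) (algebraMap ℤ ℂ)]
      at ha
    have h3 := (Polynomial.mem_roots'.1 ha).2
    rw [IsRoot.def, eval_map_algebraMap] at h3
    exact ⟨⟨a, (hz a h3).1⟩, rfl⟩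
  obtain ⟨x, rfl⟩ : α ∈ ι.range := by
    refine hsplit.mem_range_of_isRoot hne (i := ι) ?_
    rw [Polynomial.map_map, RingHom.ext_int (ι.comp (algebraMap ℤ E)) (algebraMap ℤ L),
      IsRoot.def, eval_map_algebraMap]
    exact h1
  -- its absolute value
  have hx : aeval (x : ℂ) P = 0 := by
    have h2 : aeval x P = 0 := by
      apply ι.injective
      rw [map_zero, ← h1, aeval_def, aeval_def, hom_eval₂,
        RingHom.ext_int (ι.comp (algebraMap ℤ E)) (algebraMap ℤ L)]
    have h3 := congrArg E.subtype h2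
    rw [map_zero, aeval_def, hom_eval₂,
      RingHom.ext_int (E.subtype.comp (algebraMap ℤ E)) (algebraMap ℤ ℂ)] at h3
    exact h3
  obtain ⟨-, hnorm⟩ := hz _ hx
  -- the conjugate
  have hconj : aeval ((starRingEnd ℂ) (x : ℂ)) P = 0 := by
    have h3 := congrArg (starRingEnd ℂ) hx
    rw [map_zero, aeval_def, hom_eval₂,
      RingHom.ext_int ((starRingEnd ℂ).comp (algebraMap ℤ ℂ)) (algebraMap ℤ ℂ)] at h3
    exact h3
  set y : E := ⟨(starRingEnd ℂ) (x : ℂ), (hz _ hconj).1⟩ with hy
  change τ (ι x) * ι x = _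
  rw [hτ x y rfl, ← map_mul]
  have h4 : y * x = ((q ^ i : ℕ) : E) := by
    apply Subtype.ext
    change (starRingEnd ℂ) (x : ℂ) * (x : ℂ) = _
    rw [mul_comm, Complex.mul_conj, Complex.normSq_eq_norm_sq, hnorm]
    push_cast
    rfl
  rw [h4, map_natCast, Nat.cast_pow]

end Alg

end Pool.Agent.TH127
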