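import Pool.Agent.TH127.DensBase

/-!
# Varieties with Frobenius eigenvalues in a number field after an extension of the coefficients,
continued
-/

open CategoryTheory AlgebraicGeometry Finset TensorProduct Polynomial

set_option autoImplicit false

universe u v

namespace Pool.Agent.TH127

open Pool.Agent.H914 Pool.Agent.H914.VarClass Pool.Agent.H914.VarClass.Obj
  Pool.Agent.H914.WeilCohomology Pool.Agent.W550.B Pool.Agent.H281R3.HT

variable {k : Type u} [Field k] {𝒱 : VarClass k} {ops : CycleOps 𝒱}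
  {W : WeilCohomology.{u, v} ops} {X Y : 𝒱.Obj} {L : Type v} [Field L] [Algebra W.K L]

lemma base_homEqNum (h : HomEqNum W X) : HomEqNum (baseW W L) X := by
  intro j hj z hz hnum
  exact base_cl_eq_zero.2 (h j hj z hz hnum)

lemma base_lefschetzB {D : X.Cycles} (h : LefschetzB W X D) : LefschetzB (baseW W L) X D := by
  obtain ⟨z, hz, h1⟩ := h
  refine ⟨z, hz, ?_⟩
  have h2 := isLam_base (L := L) h1
  rw [← mulLeft_base] at h2
  have h3 : (baseW W L).corr ((baseW W L).cl (X.prod X) z) =
      ((W.corr (W.cl (X.prod X) z)).baseChange L : Module.End L (L ⊗[W.K] W.H X)) :=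
    corrOp_base (L := L) (W.map (fst X X)) (W.push (snd X X)) (W.cl _ z)
  have h4 : ∀ Q : Module.End L (L ⊗[W.K] W.H X),
      Q = (W.corr (W.cl (X.prod X) z)).baseChange L →
      IsLam (fun i => (W.gr X i).baseChange L) X.dim
        (LinearMap.mulLeft L ((1 : L) ⊗ₜ[W.K] W.cl X D)) Q := by
    rintro _ rfl
    exact h2
  exact h4 _ h3

lemma pullOp_base (F : X ⟶ X) : pullOp (baseW W L) F =
    ((pullOp W F).baseChange L : Module.End L (L ⊗[W.K] W.H X)) := by
  apply LinearMap.ext
  intro x
  exact Pool.Agent.TH117.NH.mapBase_apply (W.map F) x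

/-- The conjugation attached to an automorphism of the coefficients. -/
noncomputable def baseConj (W : WeilCohomology.{u, v} ops) (L : Type v) [Field L]
    [Algebra W.K L] (τ : L ≃ₐ[W.K] L) : Conjugation (baseW W L) where
  τ := (semiLin W L τ).τ
  σ X := (semiLin W L τ).σ X
  isConjugation X :=
    { add := fun a b => map_add _ a b
      mul := fun a b => (semiLin W L τ).mul a b
      smul := fun c a => (semiLin W L τ).smul c a
      gr := fun _ _ ha => (semiLin W L τ).gr ha
      inj := fun a h => (semiLin W L τ).inj a h }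
  map f := fun a => ((semiLin W L τ).map f a).symm
  push {X Y} f := fun a => (sig_base τ (W.push f) a).symm
  cl _ := fun z => (semiLin W L τ).cl z

lemma coef_trans (φ : L →ₗ[W.K] W.K) {x : L ⊗[W.K] W.H X}
    (hx : (x : (baseW W L).H X) ∈ transcendental (baseW W L) X) :
    coef φ x ∈ transcendental W X := by
  refine mem_trans.2 ?_
  rintro j _ ⟨z, hz, rfl⟩
  have h1 : formBase L (W.tr X) (x * (1 : L) ⊗ₜ[W.K] W.cl X z) = 0 :=
    (mem_trans (W := baseW W L)).1 hx j _ ⟨z, hz, rfl⟩
  rw [bil_apply, ← coef_form, h1, map_zero]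

lemma base_KOp_mem {Z : Module.End L (L ⊗[W.K] W.H X)}
    (h : ∀ φ : L →ₗ[W.K] W.K, opCoef φ Z ∈ KOp W X X 0) :
    (Z : Module.End (baseW W L).K ((baseW W L).H X)) ∈ KOp (baseW W L) X X 0 := by
  have : Module.Finite W.K (W.H X) := (W.isPoincareAlgebra X).finite
  exact mem_of_opCoef (K := W.K) (V := W.H X) (L := L) (KOp W X X 0) (KOp (baseW W L) X X 0)
    (fun Y hY => KOp.base hY) Z h

end Pool.Agent.TH127
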