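import Pool.Agent.TH127.DensBase2

/-!
# Irreducible eigenspaces after an extension of the coefficients
-/

open CategoryTheory AlgebraicGeometry Finset TensorProduct Polynomial

set_option autoImplicit false

universe u v

namespace Pool.Agent.TH127

open Pool.Agent.H914 Pool.Agent.H914.VarClass Pool.Agent.H914.VarClass.Obj
  Pool.Agent.H914.WeilCohomology Pool.Agent.W550.B Pool.Agent.H281R3.HT

section Rank

variable {k : Type u} [Field k] {𝒱 : VarClass k} {ops : CycleOps 𝒱}
  {W : WeilCohomology.{u, v} ops} {X : 𝒱.Obj} {F : X ⟶ X}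

/-- Eigenvectors are homogeneous, of a degree determined by the eigenvalue. -/
lemma exists_degree_of {τ : W.K →+* W.K} {q : ℕ} (hq : 1 < q)
    (hw : HasWeights (W.gr X) (pullOp W F) τ q) {α : W.K} {v : W.H X} (hv : v ≠ 0)
    (hα : W.map F v = α • v) :
    ∃ i, ∀ u : W.H X, W.map F u = α • u → u ∈ W.gr X i := by
  have hinj : ∀ {i j : ℕ}, (q : W.K) ^ i = (q : W.K) ^ j → i = j := by
    intro i j hij
    have h1 : q ^ i = q ^ j := by exact_mod_cast hij
    exact Nat.pow_right_injective hq h1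
  have hP : ∀ (j : ℕ) (u : W.H X), W.map F u = α • u → proj (W.isInternal X) j u ≠ 0 →
      τ α * α = (q : W.K) ^ j := by
    intro j u hu hj
    refine hw j α _ (proj_mem _ j u) hj ?_
    change W.map F _ = _
    rw [IsTateEndo.map_proj, hu, map_smul]
  obtain ⟨i, hi⟩ : ∃ i, proj (W.isInternal X) i v ≠ 0 := by
    by_contra hcon
    push Not at hcon
    apply hv
    rw [← IsTateEndo.sum_proj_apply v]
    exact Finset.sum_eq_zero (fun i _ => hcon i)
  refine ⟨i, fun u hu => ?_⟩
  have h1 : ∀ j, j ≠ i → proj (W.isInternal X) j u = 0 := by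
    intro j hj
    by_contra hne
    apply hj
    apply hinj
    rw [← hP j u hu hne, hP i v hα hi]
  rw [← IsTateEndo.sum_proj_apply u]
  refine Submodule.sum_mem _ (fun j _ => ?_)
  by_cases hj : j = i
  · subst hj
    exact proj_mem _ _ _
  · rw [h1 j hj]
    exact Submodule.zero_mem _

/-- Operators of rank one on the transcendental cohomology commuting with `F`. -/
lemma exists_rankOne (hDX : HomEqNum W X) (hss : (pullOp W F).IsSemisimple) {i : ℕ} {α : W.K}
    {v v' : W.H X} (hv : v ∈ transcendental W X) (hv' : v' ∈ transcendental W X)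
    (hvi : v ∈ W.gr X i) (hvi' : v' ∈ W.gr X i) (hv0 : v ≠ 0) (hα : W.map F v = α • v)
    (hα' : W.map F v' = α • v') :
    ∃ Z : Module.End W.K (W.H X), (∀ j, ∀ a ∈ W.gr X j, Z a ∈ W.gr X j) ∧
      (∀ a, Z (W.map F a) = W.map F (Z a)) ∧ (∀ j, ∀ c ∈ algClasses W X j, Z c = 0) ∧
      (∀ a, Z a ∈ transcendental W X) ∧ Z v = v' := by
  obtain ⟨π, hπ⟩ := exists_cProj hDX
  -- `v` is not in the range of `F - α`
  set N : Module.End W.K (W.H X) := pullOp W F - algebraMap W.K (Module.End W.K (W.H X)) α with hN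
  have hNa : ∀ a, N a = W.map F a - α • a := fun a => rfl
  have hnot : v ∉ LinearMap.range N := by
    rintro ⟨x, hx⟩
    have h1 : x ∈ (pullOp W F).genEigenspace α ((2 : ℕ) : ℕ∞) := by
      rw [Module.End.mem_genEigenspace_nat]
      change (N ^ 2) x = 0
      rw [pow_two, Module.End.mul_apply, hx, hNa, hα, sub_self]
    rw [hss.isFinitelySemisimple.genEigenspace_eq_eigenspace α (by norm_num),
      Module.End.mem_eigenspace_iff] at h1
    apply hv0
    rw [← hx, hNa]
    exact sub_eq_zero.2 h1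
  obtain ⟨μ, hμv, hμ⟩ := Submodule.exists_le_ker_of_notMem hnot
  have hμF : ∀ a, μ (W.map F a) = α * μ a := by
    intro a
    have h1 : μ (N a) = 0 := hμ ⟨a, rfl⟩
    rw [hNa, map_sub, map_smul, smul_eq_mul, sub_eq_zero] at h1
    exact h1
  -- the linear form
  have hFK := amap_KOp (W := W) F
  have hPF : ∀ a, piT π (W.map F a) = W.map F (piT π a) := by
    intro a
    have h1 := hπ.piT_comm (Z := (W.map F).toLinearMap) (fun a ha => KOp.trans hFK ha)
      (fun l u hu => KOp.span0 hFK l hu)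
    exact (congrArg (fun G => G a) h1).symm
  have hPgr : ∀ j, ∀ a ∈ W.gr X j, piT π a ∈ W.gr X j := by
    intro j a ha
    have h1 := KOp.isHom (hπ.piT_mem) (j : ℤ) a (by rw [grZ_natCast]; exact ha)
    rwa [mul_zero, add_zero, grZ_natCast] at h1
  set lam : W.H X →ₗ[W.K] W.K :=
    (μ v)⁻¹ • (μ ∘ₗ proj (W.isInternal X) i ∘ₗ piT π) with hlam
  have hl : ∀ a, lam a = (μ v)⁻¹ * μ (proj (W.isInternal X) i (piT π a)) := fun a => rfl
  have hlamF : ∀ a, lam (W.map F a) = α * lam a := by
    intro a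
    rw [hl, hl, hPF, ← IsTateEndo.map_proj, hμF]
    ring
  refine ⟨lam.smulRight v', ?_, ?_, ?_, ?_, ?_⟩
  · intro j a ha
    rw [LinearMap.smulRight_apply]
    by_cases hj : j = i
    · subst hj
      exact Submodule.smul_mem _ _ hvi'
    · rw [hl, proj_ne _ (hPgr j a ha) hj, map_zero, mul_zero, zero_smul]
      exact Submodule.zero_mem _
  · intro a
    rw [LinearMap.smulRight_apply, LinearMap.smulRight_apply, hlamF, map_smul, hα', smul_smul,
      mul_comm]
  · intro j c hc
    rw [LinearMap.smulRight_apply, hl]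
    have h1 : piT π c = 0 := by
      by_cases hj : j ≤ X.dim
      · exact hπ.piT_span hj (alg_mem_span hc)
      · have h2 := alg_gr hc
        rw [W.gr_eq_bot X (2 * j) (by omega), Submodule.mem_bot] at h2
        rw [h2, map_zero]
    rw [h1, map_zero, map_zero, mul_zero, zero_smul]
  · intro a
    rw [LinearMap.smulRight_apply]
    exact Submodule.smul_mem _ _ hv'
  · rw [LinearMap.smulRight_apply, hl, hπ.piT_fix hv, proj_same _ hvi, inv_mul_cancel₀ hμv,
      one_smul]

end Rank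

variable {k : Type u} [Field k] {𝒱 : VarClass k} {ops : CycleOps 𝒱}
  {W : WeilCohomology.{u, v} ops} {X Y : 𝒱.Obj} {L : Type v} [Field L] [Algebra W.K L]

/-- The eigenspaces are irreducible after the extension of the coefficients. -/
theorem irreducible_base {E : Subfield ℂ} {D : X.Cycles} {F : X ⟶ X} {q : ℕ}
    (h : IsWeilEndo W E X D F q) (hDX : HomEqNum W X) {τ : L →+* L}
    (hw : HasWeights ((baseW W L).gr X) (pullOp (baseW W L) F) τ q) :
    IrreducibleEigenspaces (baseW W L) X F := by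
  intro α v v' hv hv' hv0 hα hα'
  obtain ⟨i, hi⟩ := exists_degree_of h.one_lt hw hv0 hα
  have hss : (pullOp (baseW W L) F).IsSemisimple := by
    have : Module.Finite W.K (W.H X) := (W.isPoincareAlgebra X).finite
    rw [pullOp_base]
    exact Pool.Agent.TH117.NH.semisimple_base (L := L) h.semisimple
  obtain ⟨Z, hZ1, hZ2, hZ3, hZ4, hZ5⟩ := exists_rankOne (base_homEqNum hDX) hss hv hv'
    (hi v hα) (hi v' hα') hv0 hα hα'
  refine ⟨Z, ?_, hZ5⟩
  have hFb : ∀ a : W.H X, (baseW W L).map F ((1 : L) ⊗ₜ[W.K] a : L ⊗[W.K] W.H X) =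
      ((1 : L) ⊗ₜ[W.K] W.map F a : L ⊗[W.K] W.H X) := fun a => rfl
  have key : ∀ φ : L →ₗ[W.K] W.K, opCoef φ (Z : Module.End L (L ⊗[W.K] W.H X)) ∈
      KOp W X X 0 := by
    intro φ
    have h0 : IsAlgOp W X (opCoef φ Z) := by
      refine h.commutant (opCoef φ Z) (fun j a ha => ?_) (fun a => ?_) ?_ (fun a => ?_)
      · exact coef_mem φ (hZ1 j _ (Submodule.tmul_mem_baseChange_of_mem (1 : L) ha))
      · have h1 := hZ2 ((1 : L) ⊗ₜ[W.K] a : L ⊗[W.K] W.H X)
        rw [hFb] at h1
        refine (congrArg (coef φ) h1).trans ?_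
        refine (congrArg (coef φ) (Pool.Agent.TH117.NH.mapBase_apply (W.map F) _)).trans ?_
        exact coef_base φ (pullOp W F) _
      · rintro a ⟨_, ⟨j, rfl⟩, ⟨z, hz, rfl⟩⟩
        refine (congrArg (coef φ) (hZ3 j _ ⟨z, hz, rfl⟩)).trans ?_
        exact map_zero _
      · exact coef_trans φ (hZ4 _)
    obtain ⟨γ, hγ, hγ'⟩ := h0
    rw [mem_KOp_iff]
    exact ⟨γ, by rwa [add_zero], hγ'⟩
  obtain ⟨γ, hγ, hγ'⟩ := mem_KOp_iff.1 (base_KOp_mem key)
  exact ⟨γ, by rwa [add_zero] at hγ, hγ'⟩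

end Pool.Agent.TH127
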