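import Pool.Agent.W522.C.C2

/-!
# Automorphisms whose powers contain the complex conjugation: definitions
-/

set_option autoImplicit false

namespace Pool.Agent.TH127

/-- The automorphisms `g` of the field `E` of complex numbers such that some iterate of `g` is the
complex conjugation on `E`. -/
def conjugating (E : Subfield ℂ) : Set (E ≃+* E) :=
  {g | ∃ m : ℕ, ∀ x : E, ((g^[m] x : E) : ℂ) = (starRingEnd ℂ) (x : ℂ)}

/-- The number of the automorphisms of `E` some iterate of which is the complex conjugation, divided
by the degree of `E` over the rational numbers. -/
noncomputable def conjDensity (E : Subfield ℂ) : ℝ :=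
  Nat.card (conjugating E) / Module.finrank ℚ E

end Pool.Agent.TH127
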