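import Pool.Agent.TH127.DensIrr
import Pool.Agent.TH127.DensAtDefs

/-!
# Homological and numerical equivalence for a set of primes of positive density
-/

open CategoryTheory AlgebraicGeometry Finset TensorProduct Polynomial

set_option autoImplicit false

universe u v

namespace Pool.Agent.TH127

open Pool.Agent.H914 Pool.Agent.H914.VarClass Pool.Agent.H914.VarClass.Obj
  Pool.Agent.H914.WeilCohomology Pool.Agent.W550.B Pool.Agent.H281R3.HT Pool.Agent.W522.C

section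

variable {k : Type u} [Field k] {𝒱 : VarClass k} {ops : CycleOps 𝒱}
  {W : WeilCohomology.{u, v} ops} {X Y : 𝒱.Obj}

/-- The properties of `IsIrreducibleVariety` after the extension of the coefficients. -/
theorem isIrreducibleVariety_base {E : Subfield ℂ} (h : IsWeilVariety W E X) (L : Type v)
    [Field L] [Algebra W.K L] (ι : E →+* L) (τ : L ≃ₐ[W.K] L)
    (hτ : ∀ x y : E, (y : ℂ) = (starRingEnd ℂ) (x : ℂ) → τ (ι x) = ι y) :
    IsIrreducibleVariety (baseW W L) (baseConj W L τ).τ X := by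
  obtain ⟨hDX, D, hD, hHL, hB, F, q, hF⟩ := h
  have hq : q ≠ 0 := by
    have := hF.one_lt
    omega
  have hw : HasWeights ((baseW W L).gr X) (pullOp (baseW W L) F) (τ : L →+* L) q := by
    rw [pullOp_base]
    exact hasWeights_base (L := L) hF.weights hq ι τ hτ
  refine ⟨base_homEqNum hDX, D, hD, base_hardLefschetz hD hHL, base_lefschetzB hB, F, q,
    hF.one_lt, ?_, ?_, hw, irreducible_base hF hDX hw⟩
  · have h1 : ((1 : L) ⊗ₜ[W.K] W.map F (W.cl X D) : L ⊗[W.K] W.H X) =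
        ((q : ℕ) : L) • ((1 : L) ⊗ₜ[W.K] W.cl X D) := by
      have h2 : W.map F (W.cl X D) = (q : W.K) • W.cl X D := hF.scale
      rw [h2, tmul_smul, Pool.Agent.TH117.NH.algSmul, map_natCast]
    exact h1
  · have : Module.Finite W.K (W.H X) := (W.isPoincareAlgebra X).finite
    rw [pullOp_base]
    exact Pool.Agent.TH117.NH.semisimple_base (L := L) hF.semisimple

lemma dominates_refl (W : WeilCohomology.{u, v} ops) (Q : 𝒱.Obj) : Dominates W Q Q :=
  ⟨𝟙 _, 0, Q.V.fundCycle, 1, Q.V.fundCycle_mem, one_ne_zero, by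
    rw [W.push_id, W.cl_fund, one_smul]⟩

end

/-- **The local theorem.** -/
theorem numEqHomAt_of_conjAt {E : Subfield ℂ} {ℓ : ℕ} [Fact ℓ.Prime] (h : ConjAt E ℓ) :
    NumEqHomAt.{u, v} E ℓ := by
  intro k _ 𝒱 ops W he Y hY
  obtain ⟨e⟩ := he
  obtain ⟨ι, σ, hσ⟩ := h
  let L := AlgebraicClosure W.K
  let ε : L ≃+* AlgebraicClosure ℚ_[ℓ] :=
    IsAlgClosure.equivOfEquiv L (AlgebraicClosure ℚ_[ℓ]) e
  have hε : ∀ x, ε (algebraMap W.K L x) = algebraMap ℚ_[ℓ] (AlgebraicClosure ℚ_[ℓ]) (e x) :=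
    IsAlgClosure.equivOfEquiv_algebraMap L (AlgebraicClosure ℚ_[ℓ]) e
  let τ : L ≃ₐ[W.K] L := AlgEquiv.ofRingEquiv (f := (ε.trans σ.toRingEquiv).trans ε.symm)
    (fun x => by
      change ε.symm (σ (ε (algebraMap W.K L x))) = _
      rw [hε, σ.commutes, ← hε, RingEquiv.symm_apply_apply])
  let ι' : E →+* L := (ε.symm : AlgebraicClosure ℚ_[ℓ] →+* L).comp ι
  have hτ : ∀ x y : E, (y : ℂ) = (starRingEnd ℂ) (x : ℂ) → τ (ι' x) = ι' y := by
    intro x y hxy
    change ε.symm (σ (ε (ε.symm (ι x)))) = ε.symm (ι y)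
    rw [RingEquiv.apply_symm_apply, hσ x y hxy]
  have : IsAlgClosed (baseW W L).K := inferInstanceAs (IsAlgClosed (AlgebraicClosure W.K))
  have hprod : ∀ Q, IsProductOf {P | IsWeilVariety W E P} Q → HomEqNum W Q := fun Q hQ =>
    homEqNum_base (generated (W := baseW W L) (baseConj W L τ)
      (T := {P | IsWeilVariety W E P})
      (fun P hP => isIrreducibleVariety_base hP L ι' τ hτ)
      (Or.inl ⟨Q, hQ, dominates_refl _ Q⟩)).1
  rcases hY with ⟨Q, hQ, h⟩ | ⟨r, Q, hQ, h⟩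
  · exact (hprod Q hQ).image h
  · exact Pool.Agent.TH117.NH.homEqNum_of_isSummand (fun j => hprod _ (hQ j)) h

/-- **The density theorem.** -/
theorem density_main (E : Subfield ℂ) [NumberField E] [IsGalois ℚ E] :
    LowerDensity {ℓ | ∃ h : ℓ.Prime, @NumEqHomAt.{u, v} E ℓ ⟨h⟩} (conjDensity E) :=
  (density_conjAt E).mono fun _ hℓ ⟨_, h⟩ => ⟨hℓ, @numEqHomAt_of_conjAt.{u, v} E _ ⟨hℓ⟩ h⟩

end Pool.Agent.TH127
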