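import Pool.Agent.W550.B.Defs
import Pool.Agent.H281R3.HT.FDef

/-!
# Varieties on whose transcendental cohomology Frobenius eigenspaces are irreducible: definitions
-/

open CategoryTheory AlgebraicGeometry

universe u v

namespace Pool.Agent.TH127

section Alg

variable {K : Type*} [Field K] {V : Type*} [AddCommGroup V] [Module K V]

/-- Any nonzero eigenvector `v` of `F` in the subspace `T` is mapped to any eigenvector `v'` of `F` in
`T` with the same eigenvalue by an operator with the property `E`. -/
def IrreducibleOn (T : Submodule K V) (F : Module.End K V) (E : Module.End K V → Prop) : Prop :=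
  ∀ (α : K) (v v' : V), v ∈ T → v' ∈ T → v ≠ 0 → F v = α • v → F v' = α • v' → ∃ Z, E Z ∧ Z v = v'

end Alg

open Pool.Agent.H914 Pool.Agent.H914.VarClass Pool.Agent.H914.VarClass.Obj
  Pool.Agent.H914.WeilCohomology Pool.Agent.W550.B

variable {k : Type u} [Field k] {𝒱 : VarClass k} {ops : CycleOps 𝒱}

/-- Every eigenspace of `F^*` on the transcendental cohomology of `X` (the orthogonal complement of
the classes of cycles) is irreducible under the algebraic correspondences of degree zero: any nonzero
vector `v` in it is mapped to any vector `v'` in it by a linear combination, with coefficients in the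
coefficient field, of algebraic correspondences. If the eigenvalues of `F^*` on the transcendental
cohomology are simple, this is no condition; if all operators which preserve the degrees and commute
with `F^*` are combinations of algebraic correspondences, it is satisfied. -/
def IrreducibleEigenspaces (W : WeilCohomology.{u, v} ops) (X : 𝒱.Obj) (F : X ⟶ X) : Prop :=
  IrreducibleOn (transcendental W X) (pullOp W F) (IsAlgOp W X)

/-- The endomorphism `F` of `X` has the properties of the Frobenius endomorphism over the finite
field with `q` elements: it multiplies the class of the divisor `D` by `q`, its action on the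
cohomology is semisimple, and all eigenvalues `α` of `F^*` on `H^i(X)` satisfy `τ(α) α = q ^ i`,
where the endomorphism `τ` of the coefficient field plays the role of the complex conjugation on
algebraic numbers. Its eigenspaces on the transcendental cohomology are irreducible under the
algebraic correspondences. -/
structure IsIrreducibleEndo (W : WeilCohomology.{u, v} ops) (τ : W.K →+* W.K) (X : 𝒱.Obj)
    (D : X.Cycles) (F : X ⟶ X) (q : ℕ) : Prop where
  one_lt : 1 < q
  scale : pullOp W F (W.cl X D) = (q : W.K) • W.cl X D
  semisimple : (pullOp W F).IsSemisimple
  weights : HasWeights (W.gr X) (pullOp W F) τ q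
  irreducible : IrreducibleEigenspaces W X F

/-- The variety `X` satisfies the conjecture D, and the conjecture B for a divisor `D` with hard
Lefschetz, and has an endomorphism with the properties of `IsIrreducibleEndo`. -/
def IsIrreducibleVariety (W : WeilCohomology.{u, v} ops) (τ : W.K →+* W.K) (X : 𝒱.Obj) : Prop :=
  HomEqNum W X ∧ ∃ D, X.IsCyc 1 D ∧ HardLefschetz W X D ∧ LefschetzB W X D ∧
    ∃ F q, IsIrreducibleEndo W τ X D F q

end Pool.Agent.TH127
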