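import Pool.Agent.H281R3.HT.AMain
import Pool.Agent.W550.B.Frob
import Pool.Agent.TH127.IrrDefs

/-!
# The commutant and the pairing with the conjugate for irreducible eigenspaces
-/

open CategoryTheory AlgebraicGeometry Finset

universe u v w

namespace Pool.Agent.TH127

open Pool.Agent.H914 Pool.Agent.H914.VarClass Pool.Agent.H914.VarClass.Obj
  Pool.Agent.H914.WeilCohomology Pool.Agent.W550.B Pool.Agent.H281R3.HT

variable {k : Type u} [Field k] {𝒱 : VarClass k} {ops : CycleOps 𝒱}
  {W : WeilCohomology.{u, v} ops} {X Y Q : 𝒱.Obj}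
  {τ : W.K →+* W.K} {D : X.Cycles} {F : X ⟶ X} {q : ℕ}

namespace IsIrreducibleEndo

lemma scale' (h : IsIrreducibleEndo W τ X D F q) :
    W.map F (W.cl X D) = (q : W.K) • W.cl X D := h.scale

lemma weights' (h : IsIrreducibleEndo W τ X D F q) (i : ℕ) (α : W.K) (v : W.H X)
    (hv : v ∈ W.gr X i) (hv0 : v ≠ 0) (hα : W.map F v = α • v) : τ α * α = (q : W.K) ^ i :=
  h.weights i α v hv hv0 hα

lemma q_ne (h : IsIrreducibleEndo W τ X D F q) : (q : W.K) ≠ 0 := by
  have := h.one_lt
  exact_mod_cast (show q ≠ 0 by omega)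

lemma q_inj (h : IsIrreducibleEndo W τ X D F q) {i j : ℕ}
    (hij : (q : W.K) ^ i = (q : W.K) ^ j) : i = j := by
  have h1 : q ^ i = q ^ j := by exact_mod_cast hij
  exact Nat.pow_right_injective h.one_lt h1

/-- The degree of an eigenvalue. -/
lemma exists_degree (h : IsIrreducibleEndo W τ X D F q) {α : W.K} {v : W.H X} (hv : v ≠ 0)
    (hα : W.map F v = α • v) : ∃ i, τ α * α = (q : W.K) ^ i := by
  have h1 : ∃ i, proj (W.isInternal X) i v ≠ 0 := by
    by_contra hcon
    push Not at hcon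
    apply hv
    rw [← IsTateEndo.sum_proj_apply v]
    exact Finset.sum_eq_zero (fun i _ => hcon i)
  obtain ⟨i, hi⟩ := h1
  refine ⟨i, h.weights' i α _ (proj_mem _ i v) hi ?_⟩
  rw [IsTateEndo.map_proj, hα, map_smul]

/-- The eigenvectors are homogeneous. -/
lemma mem_gr (h : IsIrreducibleEndo W τ X D F q) {α : W.K} {v : W.H X}
    (hα : W.map F v = α • v) {i : ℕ} (hi : τ α * α = (q : W.K) ^ i) : v ∈ W.gr X i := by
  have h1 : ∀ j, j ≠ i → proj (W.isInternal X) j v = 0 := by
    intro j hj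
    by_contra hne
    apply hj
    apply h.q_inj
    rw [← hi, h.weights' j α _ (proj_mem _ j v) hne]
    rw [IsTateEndo.map_proj, hα, map_smul]
  rw [← IsTateEndo.sum_proj_apply v]
  refine Submodule.sum_mem _ (fun j _ => ?_)
  by_cases hj : j = i
  · subst hj
    exact proj_mem _ _ _
  · rw [h1 j hj]
    exact Submodule.zero_mem _

lemma map_L_pow (h : IsIrreducibleEndo W τ X D F q) (m : ℕ) (a : W.H X) :
    W.map F (((LinearMap.mulLeft W.K (W.cl X D)) ^ m) a) =
      (q : W.K) ^ m • ((LinearMap.mulLeft W.K (W.cl X D)) ^ m) (W.map F a) := by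
  induction m with
  | zero => simp
  | succ m ih =>
    rw [pow_succ', Module.End.mul_apply, LinearMap.mulLeft_apply, map_mul (W.map F), ih,
      h.scale', smul_mul_smul_comm, ← pow_succ', Module.End.mul_apply, LinearMap.mulLeft_apply]

/-- The orientation is multiplied by the degree. -/
lemma tr_map (h : IsIrreducibleEndo W τ X D F q) (hD : X.IsCyc 1 D) (hHL : HardLefschetz W X D)
    (a : W.H X) : W.tr X (W.map F a) = (q : W.K) ^ X.dim * W.tr X a := by
  by_cases h1 : (1 : W.H X) = 0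
  · have : ∀ b : W.H X, b = 0 := fun b => by rw [← mul_one b, h1, mul_zero]
    rw [this a, map_zero, map_zero, mul_zero]
  have hpow : ∀ m, W.map F (((LinearMap.mulLeft W.K (W.cl X D)) ^ m) 1) =
      (q : W.K) ^ m • ((LinearMap.mulLeft W.K (W.cl X D)) ^ m) 1 := by
    intro m
    rw [h.map_L_pow, map_one]
  have hLh : IsHom (W.gr X) 2 (LinearMap.mulLeft W.K (W.cl X D)) := by
    simpa using rop_opAlg.hom (rop_mulLeft (W := W) hD)
  have hmem : ((LinearMap.mulLeft W.K (W.cl X D)) ^ X.dim) 1 ∈ W.gr X (2 * X.dim) := by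
    have h2 := (hLh.pow X.dim) ((0 : ℕ) : ℤ) 1 (by rw [grZ_natCast]; exact W.one_mem X)
    rwa [show ((0 : ℕ) : ℤ) + (X.dim : ℤ) * 2 = ((2 * X.dim : ℕ) : ℤ) by push_cast; ring,
      grZ_natCast] at h2
  refine tr_map_of_top hmem ?_ (hpow X.dim) a
  intro h0
  have h2 := eq_zero_of_top hmem h0
  exact h1 ((hHL 0 (Nat.zero_le _)).1 1 (W.one_mem X) (by rw [Nat.sub_zero]; exact h2))

/-- Induction over eigenvectors in a stable subspace. -/
lemma eig_induction [IsAlgClosed W.K] (h : IsIrreducibleEndo W τ X D F q)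
    (V : Submodule W.K (W.H X)) (hV : ∀ v ∈ V, W.map F v ∈ V) {p : W.H X → Prop}
    (heig : ∀ (α : W.K), ∀ v ∈ V, W.map F v = α • v → p v)
    (hadd : ∀ a b, p a → p b → p (a + b)) {a : W.H X} (ha : a ∈ V) : p a := by
  have htop := h.semisimple.iSup_eigenspace_eq_top
  have h1 := Submodule.eq_iSup_inf_genEigenspace (k := 1) (f := pullOp W F) (p := V) hV htop
  rw [h1] at ha
  refine Submodule.iSup_induction _ (motive := p) ha (fun μ v hv => ?_) ?_ hadd
  · exact heig μ v hv.1 (Module.End.mem_eigenspace_iff.1 hv.2)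
  · exact heig 0 0 V.zero_mem (by rw [map_zero, smul_zero])

lemma map_trans (F : X ⟶ X) {t : W.H X} (ht : t ∈ transcendental W X) :
    W.map F t ∈ transcendental W X := KOp.trans (amap_KOp F) ht

/-- The involution and the endomorphism. -/
lemma map_involution (h : IsIrreducibleEndo W τ X D F q) (hHL : HardLefschetz W X D)
    {J : Module.End W.K (W.H X)} (hJJ : J * J = 1)
    (hJle : ∀ i ≤ X.dim, ∀ a ∈ W.gr X i,
      J a = ((LinearMap.mulLeft W.K (W.cl X D)) ^ (X.dim - i)) a) {i : ℕ} {a : W.H X}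
    (ha : a ∈ W.gr X i) :
    (q : W.K) ^ i • W.map F (J a) = (q : W.K) ^ X.dim • J (W.map F a) := by
  have hJJa : ∀ a, J (J a) = a := fun a => by rw [← Module.End.mul_apply, hJJ]; rfl
  have key : ∀ i ≤ X.dim, ∀ a ∈ W.gr X i,
      (q : W.K) ^ i • W.map F (J a) = (q : W.K) ^ X.dim • J (W.map F a) := by
    intro i hi a ha
    rw [hJle i hi a ha, hJle i hi _ (W.map_mem F ha), h.map_L_pow, smul_smul, ← pow_add]
    congr 2
    omega
  rcases le_total i X.dim with hi | hi
  · exact key i hi a ha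
  · by_cases hi2 : i ≤ 2 * X.dim
    · have hd3 : 2 * X.dim - i ≤ X.dim := by omega
      obtain ⟨b, hb, hb'⟩ := (hHL (2 * X.dim - i) hd3).2 a (by
        rwa [show 2 * X.dim - (2 * X.dim - i) = i by omega])
      have h1 : J b = a := by rw [hJle _ hd3 b hb]; exact hb'
      have h2 : J a = b := by rw [← h1, hJJa]
      have h3 := key _ hd3 b hb
      rw [h1] at h3
      have h4 := congrArg J h3
      rw [map_smul, map_smul, hJJa] at h4
      rw [h2]
      have h5 : (q : W.K) ^ X.dim • ((q : W.K) ^ i • W.map F b) =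
          (q : W.K) ^ X.dim • ((q : W.K) ^ X.dim • J (W.map F a)) := by
        rw [smul_comm, ← h4, smul_smul, smul_smul, ← pow_add, ← pow_add]
        congr 2
        omega
      exact smul_right_injective _ (pow_ne_zero X.dim h.q_ne) h5
    · rw [W.gr_eq_bot X i (by omega)] at ha
      rw [(Submodule.mem_bot _).1 ha, map_zero, map_zero, map_zero, smul_zero, smul_zero]

lemma exists_KOp (h : IsIrreducibleEndo W τ X D F q) {α : W.K} {v v' : W.H X}
    (hv : v ∈ transcendental W X) (hv' : v' ∈ transcendental W X) (hv0 : v ≠ 0)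
    (hα : W.map F v = α • v) (hα' : W.map F v' = α • v') : ∃ Z ∈ KOp W X X 0, Z v = v' := by
  obtain ⟨Z, ⟨γ, hγ, hγ'⟩, hZ⟩ := h.irreducible α v v' hv hv' hv0 hα hα'
  refine ⟨Z, ?_, hZ⟩
  rw [mem_KOp_iff]
  exact ⟨γ, by rwa [add_zero], hγ'⟩

/-- Operators on the transcendental cohomology commuting with the algebraic correspondences act
on the eigenspaces as scalars. -/
lemma scalar [IsAlgClosed W.K] (h : IsIrreducibleEndo W τ X D F q) {φ : Module.End W.K (W.H X)}
    (hφ : Commuting W X φ) (α : W.K) : ∃ c : W.K, ∀ v ∈ transcendental W X,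
      W.map F v = α • v → φ v = c • v := by
  set T : Submodule W.K (W.H X) :=
    transcendental W X ⊓ Module.End.eigenspace (pullOp W F) α with hT
  have hmem : ∀ {v}, v ∈ T ↔ v ∈ transcendental W X ∧ W.map F v = α • v := by
    intro v
    rw [hT, Submodule.mem_inf, Module.End.mem_eigenspace_iff]
    rfl
  by_cases hbot : T = ⊥
  · refine ⟨0, fun v hv hα => ?_⟩
    have h1 : v ∈ T := hmem.2 ⟨hv, hα⟩
    rw [hbot, Submodule.mem_bot] at h1
    rw [h1, map_zero, smul_zero]
  have hφT : ∀ v ∈ T, φ v ∈ T := by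
    intro v hv
    obtain ⟨h1, h2⟩ := hmem.1 hv
    refine hmem.2 ⟨hφ.1 v h1, ?_⟩
    have h3 := hφ.2 _ (amap_KOp F) v h1
    change φ (W.map F v) = W.map F (φ v) at h3
    rw [← h3, h2, map_smul]
  have : Nontrivial T := Submodule.nontrivial_iff_ne_bot.2 hbot
  obtain ⟨c, hc⟩ := Module.End.exists_eigenvalue (φ.restrict hφT)
  obtain ⟨w, hw⟩ := hc.exists_hasEigenvector
  have hw0 : (w : W.H X) ≠ 0 := fun h0 => hw.2 (Subtype.ext h0)
  have hwc : φ w = c • (w : W.H X) := congrArg Subtype.val (Module.End.mem_eigenspace_iff.1 hw.1)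
  obtain ⟨hwT, hwF⟩ := hmem.1 w.2
  refine ⟨c, fun v hv hα => ?_⟩
  obtain ⟨Z, hZ, rfl⟩ := h.exists_KOp hwT hv hw0 hwF hα
  rw [hφ.2 Z hZ w hwT, hwc, map_smul]

/-- **The commutant is commutative.** -/
theorem commCommK [IsAlgClosed W.K] (h : IsIrreducibleEndo W τ X D F q) : CommCommK W X := by
  intro φ ψ hφ hψ t ht
  refine h.eig_induction (transcendental W X) (fun v hv => map_trans F hv)
    (p := fun t => φ (ψ t) = ψ (φ t)) ?_ ?_ ht
  · intro α v hv hα
    obtain ⟨c, hc⟩ := h.scalar hφ α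
    obtain ⟨d, hd⟩ := h.scalar hψ α
    rw [hd v hv hα, map_smul, hc v hv hα, map_smul, hd v hv hα, smul_comm]
  · intro a b ha hb
    rw [map_add, map_add, ha, hb, map_add, map_add]

/-- **Stable subspaces pair with their conjugates.** -/
theorem pairsConjK [IsAlgClosed W.K] (S : Conjugation W) (h : IsIrreducibleEndo W S.τ X D F q)
    (hD : X.IsCyc 1 D) (hHL : HardLefschetz W X D) (hB : LefschetzB W X D)
    (hDX : HomEqNum W X) : PairsConjK S.toSemiLin X := by
  intro V hVT hne hV
  have hFV : ∀ v ∈ V, W.map F v ∈ V := fun v hv => hV _ (amap_KOp F) v hv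
  -- an eigenvector in `V`
  obtain ⟨α, v, hv, hv0, hα⟩ : ∃ (α : W.K), ∃ v ∈ V, v ≠ 0 ∧ W.map F v = α • v := by
    by_contra hcon
    push Not at hcon
    apply hne
    rw [Submodule.eq_bot_iff]
    intro x hx
    refine h.eig_induction V hFV (p := fun x => x = 0) ?_ ?_ hx
    · intro α v hv hα
      by_contra hv0
      exact hcon α v hv hv0 hα
    · intro a b ha hb
      rw [ha, hb, add_zero]
  have hvT := hVT hv
  obtain ⟨i, hi⟩ := h.exists_degree hv0 hα
  have hvi := h.mem_gr hα hi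
  have hα0 : α ≠ 0 := by
    rintro rfl
    rw [mul_zero] at hi
    exact pow_ne_zero _ h.q_ne hi.symm
  -- its conjugate
  have hσ0 : S.σ X v ≠ 0 := fun h => hv0 ((S.isConjugation X).inj _ h)
  have hσT : S.σ X v ∈ transcendental W X := by
    rw [mem_trans]
    intro l c hc
    obtain ⟨z, hz, rfl⟩ := hc
    have h1 := mem_trans.1 hvT l _ ⟨z, hz, rfl⟩
    rw [bil_apply] at h1 ⊢
    have h2 := tr_conj_eq_zero S.toSemiLin h1
    rw [S.toSemiLin.mul, S.toSemiLin.cl] at h2
    exact h2
  have hσi : S.σ X v ∈ W.gr X i := (S.isConjugation X).gr i v hvi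
  have hσF : W.map F (S.σ X v) = S.τ α • S.σ X v := by
    have h1 := S.map F v
    rw [h1, hα, (S.isConjugation X).smul]
  -- the dual
  obtain ⟨J, hJJ, hJmem, hJle⟩ := exists_involution hD hHL hB
  obtain ⟨G, hG, hGa⟩ := hJmem i
  have hJw : J (S.σ X v) = G (S.σ X v) := hGa _ hσi
  have hJ0 : J (S.σ X v) ≠ 0 := by
    intro h0
    apply hσ0
    have h1 : J (J (S.σ X v)) = S.σ X v := by rw [← Module.End.mul_apply, hJJ]; rfl
    rw [← h1, h0, map_zero]
  have hJT : J (S.σ X v) ∈ transcendental W X := by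
    rw [hJw]
    exact KOp.trans hG hσT
  have hJF := h.map_involution hHL hJJ hJle hσi
  rw [hσF, map_smul] at hJF
  -- a class which pairs with it
  obtain ⟨t, ht, htw⟩ : ∃ t ∈ transcendental W X, W.tr X (t * J (S.σ X v)) ≠ 0 := by
    by_contra hcon
    push Not at hcon
    apply hJ0
    apply nondeg_right
    intro z
    obtain ⟨b, hb, hzb⟩ := split_of_D hDX z
    have h1 := hcon _ hzb
    have h2 : W.tr X (b * J (S.σ X v)) = 0 := by
      clear hzb h1
      induction hb using Submodule.span_induction with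
      | mem c hc =>
        obtain ⟨j, hj⟩ := hc
        rw [alg_even_comm hj]
        exact mem_trans.1 hJT j c hj
      | zero => rw [zero_mul, map_zero]
      | add x y _ _ hx hy => rw [add_mul, map_add, hx, hy, add_zero]
      | smul r x _ hx => rw [smul_mul_assoc, map_smul, hx, smul_zero]
    rw [sub_mul, map_sub, h2, sub_zero] at h1
    exact h1
  obtain ⟨β, x, hx, hβ, hxw⟩ : ∃ (β : W.K), ∃ x ∈ transcendental W X, W.map F x = β • x ∧
      W.tr X (x * J (S.σ X v)) ≠ 0 := by
    by_contra hcon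
    push Not at hcon
    apply htw
    refine h.eig_induction (transcendental W X) (fun v hv => map_trans F hv)
      (p := fun t => W.tr X (t * J (S.σ X v)) = 0) ?_ ?_ ht
    · intro β x hx hβ
      exact hcon β x hx hβ
    · intro a b ha hb
      rw [add_mul, map_add, ha, hb, add_zero]
  -- the eigenvalue
  have hβα : β = α := by
    have h1 := h.tr_map hD hHL (x * J (S.σ X v))
    rw [map_mul (W.map F), hβ] at h1
    have h2 : (q : W.K) ^ i * W.tr X (β • x * W.map F (J (S.σ X v))) =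
        (q : W.K) ^ i * ((q : W.K) ^ X.dim * W.tr X (x * J (S.σ X v))) := by rw [h1]
    have h3 : (q : W.K) ^ i * W.tr X (β • x * W.map F (J (S.σ X v))) =
        W.tr X (β • x * ((q : W.K) ^ i • W.map F (J (S.σ X v)))) := by
      rw [mul_smul_comm, map_smul, smul_eq_mul]
    rw [h3, hJF, smul_mul_assoc, mul_smul_comm, mul_smul_comm, map_smul, map_smul, map_smul,
      smul_eq_mul, smul_eq_mul, smul_eq_mul] at h2
    have h4 : (β * S.τ α - (q : W.K) ^ i) * ((q : W.K) ^ X.dim * W.tr X (x * J (S.σ X v))) =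
        0 := by
      linear_combination h2
    have h5 : β * S.τ α - (q : W.K) ^ i = 0 := by
      rcases mul_eq_zero.1 h4 with h5 | h5
      · exact h5
      · rcases mul_eq_zero.1 h5 with h6 | h6
        · exact absurd h6 (pow_ne_zero _ h.q_ne)
        · exact absurd h6 hxw
    rw [← hi] at h5
    have h6 : S.τ α ≠ 0 := by rwa [Ne, map_eq_zero]
    exact mul_right_cancel₀ h6 (by linear_combination h5)
  rw [hβα] at hβ
  obtain ⟨Z, hZ, hZv⟩ := h.exists_KOp hvT hx hv0 hα hβ
  refine ⟨_, G, hG, x, by rw [← hZv]; exact hV Z hZ v hv, v, hv, ?_⟩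
  change W.tr X (x * G (S.σ X v)) ≠ 0
  rw [← hJw]
  exact hxw

end IsIrreducibleEndo

end Pool.Agent.TH127
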