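import Mathlib

/-!
# Minors of pairings between spanning sets
-/

namespace Pool.Agent.TH127

/-- The evaluation map of linearly independent functionals is surjective. -/
lemma surjective_of_indep {K S : Type*} [Field K] [AddCommGroup S] [Module K S] {r : ℕ}
    (f : Fin r → S →ₗ[K] K) (hf : LinearIndependent K f) :
    Function.Surjective (LinearMap.pi f : S →ₗ[K] (Fin r → K)) := by
  rw [← LinearMap.range_eq_top]
  by_contra hne
  obtain ⟨g, hg, hle⟩ := Submodule.exists_le_ker_of_lt_top _ (lt_top_iff_ne_top.2 hne)
  apply hg
  have h1 : ∑ i, g (fun j => if i = j then 1 else 0) • f i = 0 := by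
    apply LinearMap.ext
    intro s
    have h2 : g (LinearMap.pi f s) = 0 := hle ⟨s, rfl⟩
    rw [LinearMap.pi_apply_eq_sum_univ g] at h2
    simp only [LinearMap.pi_apply, smul_eq_mul] at h2
    simp only [LinearMap.sum_apply, LinearMap.smul_apply, smul_eq_mul, LinearMap.zero_apply]
    exact (Finset.sum_congr rfl fun i _ => mul_comm _ _).trans h2
  have h3 := Fintype.linearIndependent_iff.1 hf _ h1
  apply LinearMap.ext
  intro s
  rw [LinearMap.pi_apply_eq_sum_univ g]
  simp only [smul_eq_mul, LinearMap.zero_apply]
  exact Finset.sum_eq_zero fun i _ => by rw [h3 i, mul_zero]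

/-- Spanning sets of two spaces with a pairing contain families with a nonzero determinant whose
size is the rank of the pairing. -/
lemma exists_minor {K V : Type*} [Field K] [AddCommGroup V] [Module K V] [Module.Finite K V]
    (B : V →ₗ[K] V →ₗ[K] K) (A A' : Set V) :
    ∃ z w : Fin (Module.finrank K ((Submodule.span K A).map
      ((LinearMap.lcomp K K (Submodule.span K A').subtype) ∘ₗ B))) → V,
      (∀ i, z i ∈ A) ∧ (∀ i, w i ∈ A') ∧
      (Matrix.of fun i j => B (z i) (w j)).det ≠ 0 := by
  classical
  set S' := Submodule.span K A' with hS'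
  set φ : V →ₗ[K] (S' →ₗ[K] K) := (LinearMap.lcomp K K S'.subtype) ∘ₗ B with hφ
  set r := Module.finrank K ((Submodule.span K A).map φ) with hr
  have hφa : ∀ v (s : S'), φ v s = B v s := fun v s => rfl
  have hr' : r = Module.finrank K (Submodule.span K (φ '' A)) := by
    rw [hr, Submodule.map_span]
  obtain ⟨b, hbA, hbs, hbi⟩ := exists_linearIndependent K (φ '' A)
  have hbf : b.Finite := hbi.setFinite
  have := hbf.fintype
  have hcard : Fintype.card b = r := by
    rw [hr', ← hbs, finrank_span_set_eq_card hbi]
    simp
  obtain ⟨e⟩ : Nonempty (Fin r ≃ b) := ⟨(Fintype.equivFinOfCardEq hcard).symm⟩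
  choose z hzA hz using fun i => hbA (e i).2
  -- the functionals
  have hind : LinearIndependent K (fun i => φ (z i)) := by
    have h1 : (fun i => φ (z i)) = (fun x : b => (x : S' →ₗ[K] K)) ∘ e := by
      funext i
      exact hz i
    rw [h1]
    exact hbi.comp _ e.injective
  have hsurj := surjective_of_indep _ hind
  set F : V →ₗ[K] (Fin r → K) := LinearMap.pi fun i => B (z i) with hF
  have hspan : Submodule.span K (F '' A') = ⊤ := by
    rw [eq_top_iff]
    rintro y -
    obtain ⟨s, rfl⟩ := hsurj y
    rw [← Submodule.map_span]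
    exact ⟨s, s.2, rfl⟩
  obtain ⟨c, hcA, hcs, hci⟩ := exists_linearIndependent K (F '' A')
  have hcf : c.Finite := hci.setFinite
  have := hcf.fintype
  have hcard' : Fintype.card c = r := by
    have h1 := finrank_span_set_eq_card hci
    rw [hcs, hspan, finrank_top, Module.finrank_fin_fun, Set.toFinset_card] at h1
    exact h1.symm
  obtain ⟨e'⟩ : Nonempty (Fin r ≃ c) := ⟨(Fintype.equivFinOfCardEq hcard').symm⟩
  choose w hwA hw using fun i => hcA (e' i).2
  refine ⟨z, w, hzA, hwA, ?_⟩
  have hind' : LinearIndependent K (fun j => F (w j)) := by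
    have h1 : (fun j => F (w j)) = (fun x : c => (x : Fin r → K)) ∘ e' := by
      funext i
      exact hw i
    rw [h1]
    exact hci.comp _ e'.injective
  have h2 : (Matrix.of fun i j => B (z i) (w j)) = (Matrix.of fun j => F (w j)).transpose := by
    ext i j
    rfl
  rw [h2, Matrix.det_transpose]
  have h3 : LinearIndependent K (Matrix.of fun j => F (w j)).row := hind'
  rw [Matrix.linearIndependent_rows_iff_isUnit] at h3
  rwa [Matrix.isUnit_iff_isUnit_det, isUnit_iff_ne_zero] at h3

/-- A nonzero minor bounds the rank of the pairing from below. -/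
lemma le_rank_of_minor {K V : Type*} [Field K] [AddCommGroup V] [Module K V] [Module.Finite K V]
    (B : V →ₗ[K] V →ₗ[K] K) (A A' : Set V) {r : ℕ} {z w : Fin r → V} (hz : ∀ i, z i ∈ A)
    (hw : ∀ i, w i ∈ A') (hdet : (Matrix.of fun i j => B (z i) (w j)).det ≠ 0) :
    r ≤ Module.finrank K ((Submodule.span K A).map
      ((LinearMap.lcomp K K (Submodule.span K A').subtype) ∘ₗ B)) := by
  classical
  set S' := Submodule.span K A' with hS'
  set φ : V →ₗ[K] (S' →ₗ[K] K) := (LinearMap.lcomp K K S'.subtype) ∘ₗ B with hφ
  have hind : LinearIndependent K (fun i => φ (z i)) := by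
    rw [Fintype.linearIndependent_iff]
    intro g hg
    have h1 : Matrix.vecMul g (Matrix.of fun i j => B (z i) (w j)) = 0 := by
      funext j
      have h2 := congrArg (fun F => F ⟨w j, Submodule.subset_span (hw j)⟩) hg
      simp only [LinearMap.sum_apply, LinearMap.smul_apply, LinearMap.zero_apply] at h2
      simp only [Matrix.vecMul, dotProduct, Matrix.of_apply, Pi.zero_apply]
      exact h2
    intro i
    exact congrFun (Matrix.eq_zero_of_vecMul_eq_zero hdet h1) i
  have h4 : Submodule.span K (Set.range fun i => φ (z i)) ≤ (Submodule.span K A).map φ := by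
    rw [Submodule.span_le]
    rintro _ ⟨i, rfl⟩
    exact ⟨z i, Submodule.subset_span (hz i), rfl⟩
  calc r = Module.finrank K (Submodule.span K (Set.range fun i => φ (z i))) := by
        rw [finrank_span_eq_card hind, Fintype.card_fin]
    _ ≤ _ := Submodule.finrank_mono h4

/-- The rank of the pairing is the dimension of the first space if and only if its left radical is
zero. -/
lemma rank_eq_iff {K V : Type*} [Field K] [AddCommGroup V] [Module K V] [Module.Finite K V]
    (B : V →ₗ[K] V →ₗ[K] K) (A A' : Set V) :
    Module.finrank K (Submodule.span K A) = Module.finrank K ((Submodule.span K A).map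
      ((LinearMap.lcomp K K (Submodule.span K A').subtype) ∘ₗ B)) ↔
    ∀ x ∈ Submodule.span K A, (∀ w ∈ A', B x w = 0) → x = 0 := by
  set S' := Submodule.span K A' with hS'
  set S := Submodule.span K A with hS
  set φ : V →ₗ[K] (S' →ₗ[K] K) := (LinearMap.lcomp K K S'.subtype) ∘ₗ B with hφ
  have hker : (∀ x ∈ S, (∀ w ∈ A', B x w = 0) → x = 0) ↔ LinearMap.ker (φ.domRestrict S) = ⊥ := by
    rw [LinearMap.ker_eq_bot']
    constructor
    · rintro h ⟨x, hx⟩ h0
      apply Subtype.ext
      apply h x hx
      intro w hw
      exact congrArg (fun F => F ⟨w, Submodule.subset_span hw⟩) h0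
    · intro h x hx h0
      have h1 := h ⟨x, hx⟩ (by
        apply LinearMap.ext
        rintro ⟨s, hs⟩
        change B x s = 0
        induction hs using Submodule.span_induction with
        | mem y hy => exact h0 y hy
        | zero => rw [map_zero]
        | add y y' _ _ hy hy' => rw [map_add, hy, hy', add_zero]
        | smul c y _ hy => rw [map_smul, hy, smul_zero])
      exact congrArg Subtype.val h1
  have hrange : LinearMap.range (φ.domRestrict S) = S.map φ := by
    rw [LinearMap.domRestrict, LinearMap.range_comp, Submodule.range_subtype]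
  have hdim := LinearMap.finrank_range_add_finrank_ker (φ.domRestrict S)
  rw [hrange] at hdim
  rw [hker]
  constructor
  · intro h
    rw [← Submodule.finrank_eq_zero (R := K)]
    omega
  · intro h
    rw [h, finrank_bot] at hdim
    omega

end Pool.Agent.TH127
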