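import Pool.Agent.TH127.RankDefs
import Pool.Agent.TH127.RankLin
import Pool.Agent.H447R3.DegB
import Pool.Agent.W534.UDefs

/-!
# The conjecture D in one codimension as an equality of two integers
-/

open CategoryTheory AlgebraicGeometry Finset

universe u v

namespace Pool.Agent.TH127

open Pool.Agent.H914 Pool.Agent.H447 Pool.Agent.W534 VarClass Obj WeilCohomology

variable {k : Type u} [Field k] {𝒱 : VarClass k} {ops : CycleOps 𝒱}
  {W : WeilCohomology.{u, v} ops} {Z : 𝒱.Obj}

/-- The classes of the cycles of codimension `q`. -/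
def clSet (W : WeilCohomology.{u, v} ops) (Z : 𝒱.Obj) (q : ℕ) : Set (W.H Z) :=
  {c | ∃ z, Z.IsCyc q z ∧ W.cl Z z = c}

lemma span_clSet (q : ℕ) : Submodule.span W.K (clSet W Z q) = spanCycles W Z q := by
  rw [spanCycles]
  congr 1
  ext c
  constructor
  · rintro ⟨z, hz, rfl⟩
    exact ⟨q, rfl, z, hz, rfl⟩
  · rintro ⟨p, hp, z, hz, rfl⟩
    obtain rfl : p = q := by exact_mod_cast hp
    exact ⟨z, hz, rfl⟩

/-- The rank of the intersection pairing of the spans of the cycle classes. -/
noncomputable def pairRank (W : WeilCohomology.{u, v} ops) (Z : 𝒱.Obj) (q : ℕ) : ℕ :=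
  Module.finrank W.K ((Submodule.span W.K (clSet W Z q)).map
    ((LinearMap.lcomp W.K W.K (Submodule.span W.K (clSet W Z (Z.dim - q))).subtype) ∘ₗ bil W Z))

lemma hasMinor_pairRank {q : ℕ} (hq : q ≤ Z.dim) : HasMinor ops Z q (pairRank W Z q) := by
  obtain ⟨z, w, hz, hw, hdet⟩ := exists_minor (bil W Z) (clSet W Z q) (clSet W Z (Z.dim - q))
  choose z' hz' hzz using hz
  choose w' hw' hww using hw
  refine ⟨z', w', hz', hw', ?_⟩
  intro h0
  apply hdet
  have h1 : (Matrix.of fun i j => bil W Z (z i) (w j)) =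
      (interMatrix ops Z z' w').map (Rat.castHom W.K) := by
    ext i j
    simp only [Matrix.of_apply, interMatrix, Matrix.map_apply, Rat.coe_castHom, bil_apply]
    rw [← hzz i, ← hww j, tr_mul_cl (hz' i) (hw' j) (by omega)]
  have h2 : ((interMatrix ops Z z' w').map (Rat.castHom W.K)).det =
      Rat.castHom W.K (interMatrix ops Z z' w').det := by
    rw [RingHom.map_det]
    rfl
  have h3 : Rat.castHom W.K (interMatrix ops Z z' w').det = 0 :=
    (congrArg (Rat.castHom W.K) h0).trans (map_zero _)
  exact (congrArg Matrix.det h1).trans (h2.trans h3)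

lemma le_pairRank {q r : ℕ} (hq : q ≤ Z.dim) (h : HasMinor ops Z q r) : r ≤ pairRank W Z q := by
  obtain ⟨z, w, hz, hw, hdet⟩ := h
  apply le_rank_of_minor (bil W Z) (clSet W Z q) (clSet W Z (Z.dim - q))
    (z := fun i => W.cl Z (z i)) (w := fun j => W.cl Z (w j)) (fun i => ⟨z i, hz i, rfl⟩)
    (fun j => ⟨w j, hw j, rfl⟩)
  have h1 : (Matrix.of fun i j => bil W Z (W.cl Z (z i)) (W.cl Z (w j))) =
      (interMatrix ops Z z w).map (Rat.castHom W.K) := by
    ext i j
    simp only [Matrix.of_apply, interMatrix, Matrix.map_apply, Rat.coe_castHom, bil_apply]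
    rw [tr_mul_cl (hz i) (hw j) (by omega)]
  have h2 : ((interMatrix ops Z z w).map (Rat.castHom W.K)).det =
      Rat.castHom W.K (interMatrix ops Z z w).det := by
    rw [RingHom.map_det]
    rfl
  rw [h1, h2]
  intro h0
  apply hdet
  exact (Rat.castHom W.K).injective (h0.trans (map_zero _).symm)

/-- The numerical rank is the rank of the pairing in cohomology. -/
lemma numRank_eq {q : ℕ} (hq : q ≤ Z.dim) : numRank ops Z q = pairRank W Z q := by
  apply le_antisymm
  · exact csSup_le ⟨_, hasMinor_pairRank (W := W) hq⟩ fun r hr => le_pairRank hq hr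
  · exact le_csSup ⟨_, fun r hr => le_pairRank (W := W) hq hr⟩ (hasMinor_pairRank hq)

/-- The numerical rank is at most the rank of the cycle classes. -/
theorem numRank_le {q : ℕ} (hq : q ≤ Z.dim) : numRank ops Z q ≤ cycleRank W Z q := by
  rw [numRank_eq (W := W) hq, pairRank, cycleRank, ← span_clSet]
  exact Submodule.finrank_map_le _ _

/-- **The conjecture D in one codimension is an equality of two integers.** -/
theorem homEqNumIn_iff_rank {q : ℕ} (hq : q ≤ Z.dim) :
    HomEqNumIn W Z q ↔ cycleRank W Z q = numRank ops Z q := by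
  rw [numRank_eq (W := W) hq, pairRank, cycleRank, ← span_clSet, rank_eq_iff]
  constructor
  · intro h x hx h0
    rw [span_clSet] at hx
    apply HomEqNumIn.span (p := Z.dim - q) (by omega) h hx
    intro w hw
    rw [W.even_comm (W.cl_mem hw)]
    exact h0 _ ⟨w, hw, rfl⟩
  · intro h z hz hnum
    apply h _ (Submodule.subset_span ⟨z, hz, rfl⟩)
    rintro _ ⟨w, hw, rfl⟩
    rw [bil_apply, tr_mul_cl hz hw (by omega), hnum w hw, Rat.cast_zero]

end Pool.Agent.TH127
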