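import Pool.Agent.H914R2.HodgeDefs

/-!
# Numerical ranks: definitions
-/

open CategoryTheory AlgebraicGeometry

universe u v

namespace Pool.Agent.TH127

open Pool.Agent.H914 VarClass Obj WeilCohomology

variable {k : Type u} [Field k] {𝒱 : VarClass k}

/-- The matrix of the intersection numbers `z i · w j`. -/
noncomputable def interMatrix (ops : CycleOps 𝒱) (Z : 𝒱.Obj) {r : ℕ} (z w : Fin r → Z.Cycles) :
    Matrix (Fin r) (Fin r) ℚ :=
  Matrix.of fun i j => Z.V.degCycle (ops.mul (z i) (w j))

/-- There are `r` cycles of codimension `q` and `r` cycles of codimension `dim Z - q` on `Z` whose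
matrix of intersection numbers has a nonzero determinant. -/
def HasMinor (ops : CycleOps 𝒱) (Z : 𝒱.Obj) (q r : ℕ) : Prop :=
  ∃ z w : Fin r → Z.Cycles, (∀ i, Z.IsCyc q (z i)) ∧ (∀ i, Z.IsCyc (Z.dim - q) (w i)) ∧
    (interMatrix ops Z z w).det ≠ 0

/-- The rank of the group of cycles of codimension `q` on `Z` modulo numerical equivalence, that is
the rank of the intersection pairing between cycles of codimension `q` and cycles of codimension
`dim Z - q`. -/
noncomputable def numRank (ops : CycleOps 𝒱) (Z : 𝒱.Obj) (q : ℕ) : ℕ :=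
  sSup {r | HasMinor ops Z q r}

end Pool.Agent.TH127
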